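import Pool.Agent.H82.RPP.All

/-!
# MP_76b9e7_nt: exactly `j` primes in a positive proportion of the intervals, for every `j`

For all `lam > 0` and `j ≥ 0` a positive proportion of the intervals from `k` to
`k + 1 + floor (lam * log k)` contains exactly `j` primes.
-/

set_option autoImplicit false

open Finset

namespace Pool.Agent.Results.MP_76b9e7_nt.AllCounts

/-- The number of primes in the interval from `k` to `k + 1 + floor (lam * log k)`; for `lam = 1`
this is the interval `I_k`. -/
noncomputable def X (lam : ℝ) (k : ℕ) : ℕ :=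
  ((Icc k (k + 1 + ⌊lam * Real.log (k : ℝ)⌋₊)).filter Nat.Prime).card

/-- The proportion of the `k` with `1 <= k <= n` for which this interval contains exactly `j`
primes; for `lam = 1` this is `gamma_j(n)`. -/
noncomputable def gam (lam : ℝ) (j n : ℕ) : ℝ :=
  ((((Icc 1 n).filter (fun k : ℕ => X lam k = j)).card : ℕ) : ℝ) / n

theorem result : ∀ (lam : ℝ) (j : ℕ), 0 < lam →
    ∃ c : ℝ, 0 < c ∧ ∃ n₀ : ℕ, ∀ n : ℕ, n₀ ≤ n → c ≤ gam lam j n :=
  Pool.Agent.H82.RPP.All.tFIN

end Pool.Agent.Results.MP_76b9e7_nt.AllCounts
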