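import Pool.Agent.H82.RPP.All2

/-!
# MP_76b9e7_nt: intervals which start at a prime, and large gaps

For all `lam > 0` and `j ≥ 0` a positive proportion of the primes `p` is such that exactly `j`
primes lie in `(p, p + lam * log p]`; for `j = 0` the next prime is larger than `p + lam * log p`.
-/

set_option autoImplicit false

open Finset

namespace Pool.Agent.Results.MP_76b9e7_nt.AllCountsAtPrimes

/-- The number of primes `q` with `p < q <= p + lam * log p`. -/
noncomputable def Y (lam : ℝ) (p : ℕ) : ℕ :=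
  ((Icc (p + 1) (p + ⌊lam * Real.log (p : ℝ)⌋₊)).filter Nat.Prime).card

theorem result : ∀ (lam : ℝ) (j : ℕ), 0 < lam →
    ∃ c : ℝ, 0 < c ∧ ∃ n₀ : ℕ, ∀ n : ℕ, n₀ ≤ n →
      c * n / Real.log n ≤
        ((((Icc 1 n).filter (fun p : ℕ => p.Prime ∧ Y lam p = j)).card : ℕ) : ℝ) :=
  Pool.Agent.H82.RPP.All.tPAL

end Pool.Agent.Results.MP_76b9e7_nt.AllCountsAtPrimes
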