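import Pool.Agent.H82.RPP.All

/-!
# MP_76b9e7_nt: intervals without primes inside almost every interval of logarithmic length

For all `lam > 0` and `ε > 0` there is `R` such that, for large `n` and all but `ε n` of the
`k ≤ n`, some interval from `m` to `m + 1 + floor (lam * log m)` with `k ≤ m ≤ k + R log n`
contains no prime.
-/

set_option autoImplicit false

open Finset

namespace Pool.Agent.Results.MP_76b9e7_nt.EmptyWindows

/-- The number of primes in the interval from `k` to `k + 1 + floor (lam * log k)`; for `lam = 1`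
this is the interval `I_k`. -/
noncomputable def X (lam : ℝ) (k : ℕ) : ℕ :=
  ((Icc k (k + 1 + ⌊lam * Real.log (k : ℝ)⌋₊)).filter Nat.Prime).card

open Classical in
/-- The `k` with `1 <= k <= n` such that every interval from `m` to `m + 1 + floor (lam * log m)`
with `k <= m <= k + R log n` contains a prime. -/
noncomputable def bad (lam R : ℝ) (n : ℕ) : Finset ℕ :=
  (Icc 1 n).filter (fun k : ℕ => ∀ m : ℕ, k ≤ m → (m : ℝ) ≤ k + R * Real.log n → X lam m ≠ 0)

theorem result : ∀ lam ε : ℝ, 0 < lam → 0 < ε → ∃ R : ℝ, 0 < R ∧ ∃ n₀ : ℕ, ∀ n : ℕ, n₀ ≤ n →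
    ((bad lam R n).card : ℝ) ≤ ε * n :=
  Pool.Agent.H82.RPP.All.tEW

end Pool.Agent.Results.MP_76b9e7_nt.EmptyWindows
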