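import Pool.Agent.H21.PI.Alt

/-!
# Prime counts in intervals of logarithmic length and averages of prime tuples (MP_76b9e7_nt)
-/

set_option autoImplicit false

open Finset Filter Topology

namespace Pool.Agent.Results.MP_76b9e7_nt.TupleAverages

/-- The number of primes in the interval `I_k`, from `k` to `k + 1 + floor (log k)`. -/
noncomputable def X (k : ℕ) : ℕ :=
  ((Icc k (k + 1 + ⌊Real.log (k : ℝ)⌋₊)).filter Nat.Prime).card

/-- `gamma_j(n)`: the proportion of the `k` with `1 <= k <= n` for which `I_k` contains exactly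
`j` primes. -/
noncomputable def gam (j n : ℕ) : ℝ :=
  ((((Icc 1 n).filter (fun k : ℕ => X k = j)).card : ℕ) : ℝ) / n

/-- `gamma_j(n)` converges. -/
def Conv (j : ℕ) : Prop := ∃ L : ℝ, Tendsto (gam j) atTop (𝓝 L)

/-- The average over `1 <= k <= n` of the number of sets of `r` primes in `I_k`. -/
noncomputable def tup (r n : ℕ) : ℝ := ((∑ k ∈ Icc 1 n, (X k).choose r : ℕ) : ℝ) / n

/-- These averages converge. -/
def ConvT (r : ℕ) : Prop := ∃ L : ℝ, Tendsto (tup r) atTop (𝓝 L)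

theorem result :
    (∀ m : ℕ, (∀ j : ℕ, m ≤ j → Conv j) ↔ (∀ r : ℕ, m ≤ r → ConvT r)) ∧
    ((∀ j : ℕ, Conv j) ↔ (∀ r : ℕ, 2 ≤ r → ConvT r)) :=
  ⟨fun m => Pool.Agent.H21.PI.graded m, Pool.Agent.H21.PI.all_iff_tuples⟩

end Pool.Agent.Results.MP_76b9e7_nt.TupleAverages
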